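import Pool.Agent.T6.H29.LS.PotAux

/-!
Project LS (helper52), MP_0f1fb3_an: the measure of the set of the heights far away from the wires,
and the horizontal potential; for the module POTF (helper29).
-/

set_option autoImplicit false
open MeasureTheory Filter Topology Metric Set
open scoped ENNReal NNReal

namespace Pool.Agent.T6.H29.LS

open Pool.Agent.T6.H52.LS

variable {f : ℝ → ℝ} {C : Set ℝ} {Y : ℝ → ℝ → ℝ} {K : ℝ}

/-! ### the horizontal potential -/

lemma hh_sub (h : Dat f C Y K) (a b : ℝ) : hh f b - hh f a = ∫ x in a..b, f x := by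
  unfold hh
  exact intervalIntegral.integral_interval_sub_left (intble h _ _) (intble h _ _)

lemma hh_mono (h : Dat f C Y K) : Monotone (hh f) := by
  intro a b hab
  have h1 := hh_sub h a b
  have h2 : 0 ≤ ∫ x in a..b, f x :=
    intervalIntegral.integral_nonneg hab fun s _ => h.nonneg s
  linarith

lemma hh_cont (h : Dat f C Y K) : Continuous (hh f) :=
  intervalIntegral.continuous_primitive (fun a b => intble h a b) 0

lemma hh_V (h : Dat f C Y K) (x r : ℝ) : hh f (x + r) - hh f (x - r) = V f x r :=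
  hh_sub h _ _

lemma le_HH (h : Dat f C Y K) (u : ℝ × ℝ) : hh f u.1 ≤ HH f C u := by
  unfold HH
  have hc := hh_cont h
  have h1 : ∫ _θ in (0 : ℝ)..1, hh f u.1 = hh f u.1 := by simp
  calc hh f u.1 = ∫ _θ in (0 : ℝ)..1, hh f u.1 := h1.symm
    _ ≤ _ := by
      refine intervalIntegral.integral_mono_on zero_le_one (by simp)
        (Continuous.intervalIntegrable (by fun_prop) _ _) fun θ hθ => ?_
      exact hh_mono h (by linarith [mul_nonneg hθ.1 (rr_nonneg C u.2)])

lemma HH_le (h : Dat f C Y K) (u : ℝ × ℝ) : HH f C u ≤ hh f (u.1 + rr C u.2) := by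
  unfold HH
  have hc := hh_cont h
  have h1 : ∫ _θ in (0 : ℝ)..1, hh f (u.1 + rr C u.2) = hh f (u.1 + rr C u.2) := by simp
  calc _ ≤ ∫ _θ in (0 : ℝ)..1, hh f (u.1 + rr C u.2) := by
        refine intervalIntegral.integral_mono_on zero_le_one
          (Continuous.intervalIntegrable (by fun_prop) _ _) (by simp) fun θ hθ => ?_
        refine hh_mono h ?_
        have := mul_le_mul_of_nonneg_right hθ.2 (rr_nonneg C u.2)
        linarith
    _ = _ := h1

/-! ### the measure -/

open Classical in
/-- the indicator function of the heights with distance at least `t` from the wires -/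
noncomputable def dI (C : Set ℝ) (t z : ℝ) : ℝ := if t ≤ rr C z then 1 else 0

/-- its primitive -/
noncomputable def mm (C : Set ℝ) (t y : ℝ) : ℝ := ∫ z in (0 : ℝ)..y, dI C t z

variable {t : ℝ}

lemma rr_cont (C : Set ℝ) : Continuous (rr C) := continuous_infDist_pt C

lemma dI_meas (C : Set ℝ) (t : ℝ) : Measurable (dI C t) := by
  unfold dI
  refine Measurable.ite ?_ measurable_const measurable_const
  exact measurableSet_le measurable_const (rr_cont C).measurable

lemma dI_nonneg (C : Set ℝ) (t z : ℝ) : 0 ≤ dI C t z := by unfold dI; split_ifs <;> norm_num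
lemma dI_le (C : Set ℝ) (t z : ℝ) : dI C t z ≤ 1 := by unfold dI; split_ifs <;> norm_num

lemma dI_int (C : Set ℝ) (t a b : ℝ) : IntervalIntegrable (dI C t) volume a b := by
  rw [intervalIntegrable_iff]
  refine Measure.integrableOn_of_bounded (M := 1) (by simp) (dI_meas C t).aestronglyMeasurable ?_
  refine ae_of_all _ fun x => ?_
  rw [Real.norm_of_nonneg (dI_nonneg _ _ _)]
  exact dI_le _ _ _

lemma mm_sub (C : Set ℝ) (t p q : ℝ) : mm C t q - mm C t p = ∫ z in p..q, dI C t z := by
  unfold mm
  exact intervalIntegral.integral_interval_sub_left (dI_int C t _ _) (dI_int C t _ _)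

lemma mm_lip (C : Set ℝ) (t p q : ℝ) : |mm C t q - mm C t p| ≤ |q - p| := by
  rw [mm_sub]
  have h := intervalIntegral.norm_integral_le_of_norm_le_const (a := p) (b := q)
    (f := dI C t) (C := 1) fun x _ => by
      rw [Real.norm_of_nonneg (dI_nonneg _ _ _)]; exact dI_le _ _ _
  rwa [one_mul, Real.norm_eq_abs] at h

lemma mm_mono (C : Set ℝ) (t : ℝ) : Monotone (mm C t) := by
  intro p q hpq
  have h1 := mm_sub C t p q
  have h2 : 0 ≤ ∫ z in p..q, dI C t z :=
    intervalIntegral.integral_nonneg hpq fun s _ => dI_nonneg _ _ _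
  linarith

lemma mm_cont (C : Set ℝ) (t : ℝ) : Continuous (mm C t) :=
  intervalIntegral.continuous_primitive (fun a b => dI_int C t a b) 0

lemma mm_full {p q : ℝ} (hpq : p ≤ q) (h : ∀ z ∈ Icc p q, t ≤ rr C z) :
    mm C t q - mm C t p = q - p := by
  rw [mm_sub, intervalIntegral.integral_congr (g := fun _ => (1 : ℝ))]
  · simp
  · intro z hz
    rw [uIcc_of_le hpq] at hz
    simp only [dI]
    rw [if_pos (h z hz)]

lemma mm_zero {p q : ℝ} (h : ∀ z ∈ uIcc p q, rr C z < t) : mm C t q = mm C t p := by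
  have h1 : mm C t q - mm C t p = 0 := by
    rw [mm_sub, intervalIntegral.integral_congr (g := fun _ => (0 : ℝ))]
    · simp
    · intro z hz
      simp only [dI]
      rw [if_neg (not_le.2 (h z hz))]
  linarith

lemma mm_per (h : Dat f C Y K) (k : ℤ) (y : ℝ) : mm C t (y + k) = mm C t y + k * mm C t 1 := by
  have hp : Function.Periodic (dI C t) 1 := by
    intro z
    unfold dI
    have := rr_per h 1 z
    push_cast at this
    rw [this]
  have h1 := hp.intervalIntegral_add_zsmul_eq k y (fun a b => dI_int C t a b)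
  have h2 := hp.intervalIntegral_add_eq y 0
  have h3 := mm_sub C t y (y + k)
  have h4 : mm C t 1 = ∫ z in (0 : ℝ)..0 + 1, dI C t z := by unfold mm; norm_num
  rw [h4, ← h2]
  have h5 : y + k • (1 : ℝ) = y + k := by simp
  rw [h5] at h1
  rw [← h3] at h1
  have h6 : k • ∫ z in y..y + 1, dI C t z = k * ∫ z in y..y + 1, dI C t z := by simp
  rw [h6] at h1
  linarith

/-- an interval of length at least `ρ / 2` has measure at least `ρ / (16 K)` -/
lemma mm_por (h : Dat f C Y K) {ρ p q : ℝ} (hρ : 0 < ρ) (hρ1 : ρ ≤ 1) (hpq : p + ρ / 2 ≤ q) :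
    1 / (16 * K) * ρ ≤ mm C (1 / (16 * K) * ρ) q - mm C (1 / (16 * K) * ρ) p := by
  have hK := h.one_le
  set κ : ℝ := 1 / (16 * K) with hκ
  have hκ0 : 0 < κ := by positivity
  have hκ1 : κ ≤ 1 / 16 := by
    rw [hκ]
    exact div_le_div_of_nonneg_left one_pos.le (by norm_num) (by linarith)
  obtain ⟨z, hz1, hz2⟩ := h.por (p + ρ / 4) (ρ / 8) (by linarith) (by linarith)
  have hz3 : 2 * (κ * ρ) ≤ rr C z := by
    have h1 : 2 * (κ * ρ) * K = ρ / 8 := by rw [hκ]; field_simp; ring
    have h2 : 2 * (κ * ρ) * K ≤ rr C z * K := by rw [h1]; linarith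
    exact le_of_mul_le_mul_right h2 (by linarith)
  rw [abs_le] at hz1
  have hκρ : κ * ρ ≤ ρ / 16 := by nlinarith
  have hκρ0 : 0 < κ * ρ := by positivity
  have h1 := mm_full (C := C) (t := κ * ρ) (p := z - κ * ρ) (q := z + κ * ρ) (by linarith)
    (fun x hx => by
      have h2 := rr_lip C z x
      have h3 : |z - x| ≤ κ * ρ := by rw [abs_le]; constructor <;> linarith [hx.1, hx.2]
      have h4 := (abs_le.1 (h2.trans h3)).2
      linarith)
  have h2 := mm_mono C (κ * ρ) (show z + κ * ρ ≤ q by linarith)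
  have h3 := mm_mono C (κ * ρ) (show p ≤ z - κ * ρ by linarith)
  linarith

end Pool.Agent.T6.H29.LS
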