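import Pool.Agent.T6.H52.LS.Defs2

/-!
Project LS (helper52), MP_0f1fb3_an: auxiliary lemmas for the modules POTN and POTF (helper29).
-/

set_option autoImplicit false
open MeasureTheory Filter Topology Metric Set
open scoped ENNReal NNReal

namespace Pool.Agent.T6.H29.LS

open Pool.Agent.T6.H52.LS

variable {f : ℝ → ℝ} {C : Set ℝ} {Y : ℝ → ℝ → ℝ} {K : ℝ}

lemma f_le (h : Dat f C Y K) (x : ℝ) : f x ≤ K := by
  have h1 := h.le x
  have h2 := h.nonneg x
  have h3 : 1 ≤ (1 + |x|) ^ 2 := by nlinarith [abs_nonneg x]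
  nlinarith

lemma intble (h : Dat f C Y K) (a b : ℝ) : IntervalIntegrable f volume a b := by
  rw [intervalIntegrable_iff]
  refine Measure.integrableOn_of_bounded (M := K) (by simp) h.meas.aestronglyMeasurable ?_
  refine ae_of_all _ fun x => ?_
  rw [Real.norm_of_nonneg (h.nonneg x)]
  exact f_le h x

lemma V_nonneg (h : Dat f C Y K) {x r : ℝ} (hr : 0 ≤ r) : 0 ≤ V f x r :=
  intervalIntegral.integral_nonneg (by linarith) fun s _ => h.nonneg s

lemma V_mono (h : Dat f C Y K) {x x' r r' : ℝ} (hr : 0 ≤ r') (h1 : x - r ≤ x' - r')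
    (h2 : x' + r' ≤ x + r) : V f x' r' ≤ V f x r := by
  unfold V
  exact intervalIntegral.integral_mono_interval h1 (by linarith) h2
    (ae_of_all _ fun s => h.nonneg s) (intble h _ _)

lemma V_le (h : Dat f C Y K) {x r : ℝ} (hr : 0 ≤ r) (hr1 : r ≤ 1) : V f x r ≤ K := by
  refine (V_mono h (x := x) (r := 1) hr (by linarith) (by linarith)).trans ?_
  have h1 := h.up x
  have h2 : 0 ≤ V f x 1 := V_nonneg h zero_le_one
  have h3 : 1 ≤ (1 + |x|) ^ 4 := one_le_pow₀ (by linarith [abs_nonneg x])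
  nlinarith

lemma rr_nonneg (C : Set ℝ) (y : ℝ) : 0 ≤ rr C y := infDist_nonneg

lemma rr_lip (C : Set ℝ) (y y' : ℝ) : |rr C y - rr C y'| ≤ |y - y'| := by
  rw [abs_sub_le_iff]
  have h1 := infDist_le_infDist_add_dist (s := C) (x := y) (y := y')
  have h2 := infDist_le_infDist_add_dist (s := C) (x := y') (y := y)
  rw [Real.dist_eq] at h1 h2
  rw [abs_sub_comm y' y] at h2
  unfold rr
  constructor <;> linarith

lemma per_int {C : Set ℝ} (h : ∀ y, y + 1 ∈ C ↔ y ∈ C) (k : ℤ) (y : ℝ) : y + k ∈ C ↔ y ∈ C := by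
  induction k using Int.induction_on with
  | zero => simp
  | succ i ih =>
    rw [← ih]
    push_cast
    rw [← h (y + i)]
    ring_nf
  | pred i ih =>
    rw [← ih]
    push_cast
    rw [← h (y + (-(i : ℝ) - 1))]
    ring_nf

lemma infDist_per {C : Set ℝ} (h : ∀ y, y + 1 ∈ C ↔ y ∈ C) (k : ℤ) (y : ℝ) :
    infDist (y + k) C = infDist y C := by
  have h1 : ∀ (k : ℤ) (y : ℝ), infDist (y + k) C ≤ infDist y C := by
    intro k y
    rcases C.eq_empty_or_nonempty with rfl | hne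
    · simp
    refine (le_infDist hne).2 fun z hz => ?_
    have hz' : z + k ∈ C := (per_int h k z).2 hz
    refine (infDist_le_dist_of_mem hz').trans ?_
    rw [dist_add_right]
  refine le_antisymm (h1 k y) ?_
  have := h1 (-k) (y + k)
  push_cast at this
  rwa [add_neg_cancel_right] at this

lemma rr_per (h : Dat f C Y K) (k : ℤ) (y : ℝ) : rr C (y + k) = rr C y := infDist_per h.per k y

lemma rr_le (h : Dat f C Y K) (y : ℝ) : rr C y ≤ 1 / 2 := by
  obtain ⟨c, hc⟩ := h.ne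
  have h1 : c + (round (y - c) : ℤ) ∈ C := (per_int h.per _ c).2 hc
  refine (infDist_le_dist_of_mem h1).trans ?_
  rw [Real.dist_eq]
  have := abs_sub_round (y - c)
  rwa [show y - (c + (round (y - c) : ℤ)) = y - c - (round (y - c) : ℤ) by ring]

lemma Gh_nonneg (h : Dat f C Y K) (u : ℝ × ℝ) {ρ : ℝ} (hρ : 0 ≤ ρ) : 0 ≤ Gh f C u ρ := by
  have h1 := rr_nonneg C u.2
  exact mul_nonneg (V_nonneg h (by linarith)) (div_nonneg hρ (by linarith))

lemma Gh_zero (u : ℝ × ℝ) : Gh f C u 0 = 0 := by simp [Gh]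

lemma G_nonneg (h : Dat f C Y K) (u v : ℝ × ℝ) : 0 ≤ G f C u v :=
  add_nonneg (Gh_nonneg h u (norm_nonneg _)) (Gh_nonneg h v (norm_nonneg _))

lemma zero_mem_Pot (h : Dat f C Y K) : (fun _ => 0 : S2 → ℝ) ∈ Pot f C := by
  refine ⟨continuous_const, fun p => by simp, fun u v _ => ?_⟩
  simpa using G_nonneg h u v

/-- construction of a potential -/
lemma mkPot (hPSI : StmPSI) (hPSC : StmPSC) (φ : ℝ × ℝ → ℝ) (a b : ℝ) (hc : Continuous φ)
    (hp : ∀ x y, φ (x, y + 1) = φ (x, y)) (ha : Tendsto φ (comap Prod.fst atTop) (𝓝 a))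
    (hb : Tendsto φ (comap Prod.fst atBot) (𝓝 b)) (h1 : ∀ u, |φ u| ≤ 1)
    (hG : ∀ u v : ℝ × ℝ, ‖u - v‖ ≤ 1 → |φ u - φ v| ≤ G f C u v) :
    ∃ Φ ∈ Pot f C, (∀ u, Φ (Psi u) = φ u) ∧ Φ NN = a ∧ Φ SS = b := by
  obtain ⟨Φ, c1, c2, c3, c4⟩ := hPSC φ a b hc hp ha hb
  have hne1 : (comap (Prod.fst : ℝ × ℝ → ℝ) atTop).NeBot :=
    Filter.comap_neBot fun s hs => by
      obtain ⟨x, hx⟩ := Filter.nonempty_of_mem hs
      exact ⟨(x, 0), hx⟩
  have hne2 : (comap (Prod.fst : ℝ × ℝ → ℝ) atBot).NeBot :=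
    Filter.comap_neBot fun s hs => by
      obtain ⟨x, hx⟩ := Filter.nonempty_of_mem hs
      exact ⟨(x, 0), hx⟩
  refine ⟨Φ, ⟨c1, fun p => ?_, fun u v huv => ?_⟩, c2, c3, c4⟩
  · rcases hPSI.2.2.2.2.2.1 p with rfl | rfl | ⟨u, rfl⟩
    · rw [c3]
      exact le_of_tendsto ha.abs (Eventually.of_forall h1)
    · rw [c4]
      exact le_of_tendsto hb.abs (Eventually.of_forall h1)
    · rw [c2]; exact h1 u
  · rw [c2, c2]; exact hG u v huv

/-- a symmetric form of the condition on the gauge -/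
lemma gauge_symm (φ : ℝ × ℝ → ℝ) (P : ℝ × ℝ → Prop) (h : Dat f C Y K)
    (h0 : ∀ w w', ¬ P w → ¬ P w' → φ w = φ w')
    (h1 : ∀ w w', ‖w - w'‖ ≤ 1 → P w → |φ w - φ w'| ≤ G f C w w') :
    ∀ w w' : ℝ × ℝ, ‖w - w'‖ ≤ 1 → |φ w - φ w'| ≤ G f C w w' := by
  intro w w' hw
  by_cases hP : P w
  · exact h1 w w' hw hP
  by_cases hP' : P w'
  · have h2 := h1 w' w (by rwa [norm_sub_rev]) hP'
    rw [abs_sub_comm]
    refine h2.trans (le_of_eq ?_)
    unfold G
    rw [norm_sub_rev w' w, add_comm]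
  · rw [h0 w w' hP hP']
    simpa using G_nonneg h w w'

end Pool.Agent.T6.H29.LS
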